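import Pool.Agent.N862.RI.C
import Pool.Agent.N862.RI.D

/-!
Every measurable `r`-colouring of the unit sphere of dimension `n ≥ 3` has a monochromatic measurable
subset of normalised measure at least `1 / r ^ 2` which is invariant under a rotational involution
(with `(-1)`-eigenspace of dimension two). (helper862)
-/

set_option autoImplicit false

open MeasureTheory Set Metric Pointwise
open scoped ENNReal

namespace Pool.Agent.Results.MP_be97b2_co.DimensionAtLeastThree

open Pool.Agent.N862.RI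

section

variable {V : Type} [NormedAddCommGroup V] [InnerProductSpace ℝ V]

/-- a rotational involution: an isometry with `g ^ 2 = 1`, `g ≠ 1` and determinant one -/
def RotInvolution (g : V ≃ₗᵢ[ℝ] V) : Prop :=
  (∃ x, g x ≠ x) ∧ (∀ x, g (g x) = x) ∧ LinearMap.det g.toLinearEquiv.toLinearMap = 1

/-- the normalised surface measure of (the part in the unit sphere of) a set -/
noncomputable def sphereMeasure [FiniteDimensional ℝ V] [MeasurableSpace V] [BorelSpace V]
    (A : Set V) : ENNReal :=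
  ((volume : Measure V).toSphere univ)⁻¹ * (volume : Measure V).toSphere (Subtype.val ⁻¹' A)

end

theorem finrank_HH (m : ℕ) : Module.finrank ℝ (HH m) = 4 + m := by
  rw [(WithLp.linearEquiv 2 ℝ _).finrank_eq, Module.finrank_prod, Quaternion.finrank_eq_four,
    finrank_euclideanSpace_fin]

theorem result : ∀ (V : Type) [NormedAddCommGroup V] [InnerProductSpace ℝ V]
    [FiniteDimensional ℝ V] [MeasurableSpace V] [BorelSpace V], 4 ≤ Module.finrank ℝ V →
    ∀ r : ℕ, 1 ≤ r → ∀ c : V → Fin r, Measurable c →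
      ∃ (i : Fin r) (g : V ≃ₗᵢ[ℝ] V) (A : Set V), RotInvolution g ∧ MeasurableSet A ∧
        A ⊆ sphere 0 1 ∧ (∀ x ∈ A, c x = i) ∧ g '' A = A ∧
        ((r : ENNReal) ^ 2)⁻¹ ≤ sphereMeasure A := by
  intro V _ _ _ _ _ hn r hr c hc
  obtain ⟨m, hm⟩ : ∃ m, Module.finrank ℝ V = 4 + m := ⟨Module.finrank ℝ V - 4, by omega⟩
  haveI : Nontrivial V := Module.nontrivial_of_finrank_pos (R := ℝ) (by omega)
  obtain ⟨Ψ⟩ : Nonempty (HH m ≃ₗᵢ[ℝ] V) :=
    ⟨((stdOrthonormalBasis ℝ (HH m)).reindex
      (finCongr (by rw [finrank_HH, hm]))).repr.trans (stdOrthonormalBasis ℝ V).repr.symm⟩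
  obtain ⟨c', hc'⟩ : ∃ c' : V → Fin r,
      c' = fun y => c (‖y‖⁻¹ • y) := ⟨_, rfl⟩
  have hc'm : Measurable c' := by
    rw [hc']
    exact hc.comp (by fun_prop)
  obtain ⟨p, q, hp, hq, i, hi⟩ := exists_invol hr (fun x : HH m => c' (Ψ x))
    (hc'm.comp Ψ.continuous.measurable)
  obtain ⟨e, he⟩ : ∃ e : HH m ≃ₗᵢ[ℝ] HH m, e = lr (au p) (au q) (norm_au hp) (norm_au hq) :=
    ⟨_, rfl⟩
  have hea : ∀ x, e x = lrmap (au p) (au q) x := by
    intro x
    rw [he, lr_apply]
  obtain ⟨g, hg⟩ : ∃ g : V ≃ₗᵢ[ℝ]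
      V, g = Ψ.symm.trans (e.trans Ψ) := ⟨_, rfl⟩
  have hga : ∀ y, g y = Ψ (e (Ψ.symm y)) := by
    intro y
    rw [hg]
    rfl
  have hgg : ∀ y, g (g y) = y := by
    intro y
    rw [hga, hga, Ψ.symm_apply_apply, hea, hea, invol (au_sq hp) (au_sq hq), Ψ.apply_symm_apply]
  obtain ⟨A, hA⟩ : ∃ A : Set (V),
      A = {y | y ∈ sphere (0 : V) 1 ∧ c y = i ∧ c (g y) = i} :=
    ⟨_, rfl⟩
  have hAm : MeasurableSet A := by
    rw [hA]
    apply MeasurableSet.inter (isClosed_sphere.measurableSet)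
    apply MeasurableSet.inter
    · exact hc (measurableSet_singleton i)
    · exact (hc.comp g.continuous.measurable) (measurableSet_singleton i)
  refine ⟨i, g, A, ⟨?_, hgg, ?_⟩, hAm, ?_, ?_, ?_, ?_⟩
  · by_contra h
    push Not at h
    apply ne_refl (m := m) hp (b := au q)
    intro x
    have h1 := hga (Ψ x)
    rw [h, Ψ.symm_apply_apply, hea] at h1
    exact (Ψ.injective h1).symm
  · have h1 : g.toLinearEquiv.toLinearMap =
        (Ψ.toLinearEquiv : HH m →ₗ[ℝ] _) ∘ₗ (lrmap (au p) (au q)) ∘ₗ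
          (Ψ.toLinearEquiv.symm : _ →ₗ[ℝ] HH m) := by
      ext1 y
      have := hga y
      rw [hea] at this
      exact this
    rw [h1, LinearMap.det_conj, det_lr (au_sq hp) (au_sq hq)]
  · rw [hA]
    exact fun y hy => hy.1
  · rw [hA]
    exact fun y hy => hy.2.1
  · have hsub : ∀ y ∈ A, g y ∈ A := by
      intro y hy
      rw [hA] at hy ⊢
      obtain ⟨h1, h2, h3⟩ := hy
      refine ⟨?_, h3, by rw [hgg]; exact h2⟩
      rw [mem_sphere_zero_iff_norm] at h1 ⊢
      rw [g.norm_map, h1]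
    ext y
    constructor
    · rintro ⟨z, hz, rfl⟩
      exact hsub z hz
    · intro hy
      exact ⟨g y, hsub y hy, hgg y⟩
  · have hAs : (Subtype.val '' (Subtype.val ⁻¹' A :
        Set (sphere (0 : V) 1))) = A := by
      rw [Subtype.image_preimage_coe, inter_eq_right]
      rw [hA]
      exact fun y hy => hy.1
    unfold sphereMeasure
    rw [Measure.toSphere_apply_univ, Measure.toSphere_apply' _
      (hAm.preimage measurable_subtype_coe), hAs]
    obtain ⟨S, hS⟩ : ∃ S : Set (V),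
        S = {y | y ∈ ball (0 : V) 1 ∧ c' y = i ∧ c' (g y) = i} :=
      ⟨_, rfl⟩
    have hSm : MeasurableSet S := by
      rw [hS]
      apply MeasurableSet.inter measurableSet_ball
      apply MeasurableSet.inter
      · exact hc'm (measurableSet_singleton i)
      · exact (hc'm.comp g.continuous.measurable) (measurableSet_singleton i)
    have h1 : S \ {0} ⊆ Ioo (0 : ℝ) 1 • A := by
      rintro y ⟨hy, hy0⟩
      rw [hS] at hy
      obtain ⟨k1, k2, k3⟩ := hy
      have hy1 : y ≠ 0 := hy0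
      have hn : 0 < ‖y‖ := norm_pos_iff.2 hy1
      rw [mem_ball_zero_iff] at k1
      refine mem_smul.2 ⟨‖y‖, ⟨hn, k1⟩, ‖y‖⁻¹ • y, ?_, ?_⟩
      · rw [hA]
        refine ⟨?_, ?_, ?_⟩
        · rw [mem_sphere_zero_iff_norm, norm_smul, norm_inv, norm_norm, inv_mul_cancel₀ hn.ne']
        · rw [hc'] at k2
          exact k2
        · rw [hc'] at k3
          simp only [g.norm_map] at k3
          rw [map_smul]
          exact k3
      · rw [smul_smul, mul_inv_cancel₀ hn.ne', one_smul]
    have h2 : volume S ≤ volume (Ioo (0 : ℝ) 1 • A) := by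
      calc volume S = volume (S \ {0}) := (measure_sdiff_null (measure_singleton _)).symm
        _ ≤ _ := measure_mono h1
    have hball : vb m univ = volume (ball (0 : V) 1) := by
      unfold vb
      rw [Measure.restrict_apply_univ, ← Ψ.measurePreserving.measure_preimage
        measurableSet_ball.nullMeasurableSet]
      congr 1
      ext x
      simp
    have hSv : vb m {x | c' (Ψ x) = i ∧ c' (Ψ (lrmap (au p) (au q) x)) = i} = volume S := by
      unfold vb
      rw [Measure.restrict_apply' measurableSet_ball, ← Ψ.measurePreserving.measure_preimage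
        hSm.nullMeasurableSet]
      congr 1
      ext x
      rw [hS]
      simp only [mem_inter_iff, mem_ofPred, mem_preimage, mem_ball_zero_iff, Ψ.norm_map, hga,
        Ψ.symm_apply_apply, hea]
      tauto
    rw [hSv, hball] at hi
    have h3 := hi.trans h2
    obtain ⟨B, hB⟩ : ∃ B, B = volume (ball (0 : V) 1) := ⟨_, rfl⟩
    obtain ⟨W, hW⟩ : ∃ W, W = volume (Ioo (0 : ℝ) 1 • A) := ⟨_, rfl⟩
    obtain ⟨d, hd⟩ : ∃ d : ENNReal, d = (Module.finrank ℝ (V) : ENNReal) :=
      ⟨_, rfl⟩
    have hB0 : B ≠ 0 := by rw [hB]; exact (measure_ball_pos volume _ one_pos).ne'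
    have hBt : B ≠ ⊤ := by rw [hB]; exact measure_ball_lt_top.ne
    have hd0 : d ≠ 0 := by rw [hd, hm]; simp
    have hdt : d ≠ ⊤ := by rw [hd]; exact ENNReal.natCast_ne_top _
    rw [← hB, ← hW, ← hd]
    rw [← hB, ← hW] at h3
    calc ((r : ENNReal) ^ 2)⁻¹ = (d * B)⁻¹ * (d * (B / (r : ENNReal) ^ 2)) := by
          rw [div_eq_mul_inv, ← mul_assoc d, ← mul_assoc, ENNReal.inv_mul_cancel
            (mul_ne_zero hd0 hB0) (ENNReal.mul_ne_top hdt hBt), one_mul]
      _ ≤ (d * B)⁻¹ * (d * W) := by gcongr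

end Pool.Agent.Results.MP_be97b2_co.DimensionAtLeastThree
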